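import Pool.Agent.Y283.CSL.Loc

set_option maxHeartbeats 4000000

open scoped InnerProductSpace Topology ComplexConjugate
open Finset Filter Hop

namespace Pool.Agent.Y283.CSLQ

variable {H : Type*} [NormedAddCommGroup H] [InnerProductSpace ℂ H] [CompleteSpace H]

theorem le_of_growth {a b K : ℝ} (ha : 0 ≤ a) (hb : 0 < b)
    (h : ∀ m₀ : ℕ, ∃ m ≥ m₀, a ^ (m + 1) ≤ K * b ^ m) : a ≤ b := by
  by_contra hcon
  push Not at hcon
  have ha' : 0 < a := lt_trans hb hcon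
  have h1 : 1 < a / b := by rwa [one_lt_div hb]
  have h2 := tendsto_pow_atTop_atTop_of_one_lt h1
  obtain ⟨m₀, hm₀⟩ := (h2.eventually_gt_atTop (K / a)).exists_forall_of_atTop
  obtain ⟨m, hm, hle⟩ := h m₀
  have h3 := hm₀ m hm
  rw [div_pow, div_lt_div_iff₀ ha' (by positivity)] at h3
  rw [pow_succ] at hle
  linarith

theorem norm_star_pow (W : H →L[ℂ] H) (n : ℕ) :
    ‖(W * star W) ^ (2 ^ n)‖ = (‖W‖ * ‖W‖) ^ (2 ^ n) := by
  have hsa : IsSelfAdjoint (W * star W) := IsSelfAdjoint.mul_star_self W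
  have h := congrArg NNReal.toReal (hsa.nnnorm_pow_two_pow n)
  rw [← CStarRing.norm_self_mul_star]
  simpa using h

theorem scale_hq (L : CSL H) (T : H →L[ℂ] H) (ε : ℝ)
    (hq : ∀ S ∈ AlgL L, ‖S‖ ≤ 1 → ∃ m₀ : ℕ, ∀ m ≥ m₀, ‖(T * S) ^ m‖ ≤ ε ^ m)
    (S : H →L[ℂ] H) (hS : S ∈ AlgL L) (c : ℝ) (hc : 0 < c) (hSc : ‖S‖ ≤ c) :
    ∃ m₀ : ℕ, ∀ m ≥ m₀, ‖(T * S) ^ m‖ ≤ (ε * c) ^ m := by
  have hcc : ((c : ℝ) : ℂ) ≠ 0 := by exact_mod_cast hc.ne'
  obtain ⟨m₀, hm₀⟩ := hq ((((c : ℝ) : ℂ))⁻¹ • S) (AlgL_smul L _ hS) (by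
    rw [norm_smul, norm_inv, Complex.norm_real, Real.norm_of_nonneg hc.le, inv_mul_le_iff₀ hc]
    linarith)
  refine ⟨m₀, fun m hm => ?_⟩
  have h1 := hm₀ m hm
  rw [mul_smul_comm, smul_pow, norm_smul, norm_pow, norm_inv, Complex.norm_real,
    Real.norm_of_nonneg hc.le, inv_pow, inv_mul_le_iff₀ (by positivity)] at h1
  rw [mul_pow]
  linarith

section corner

variable (L : CSL H) (T : H →L[ℂ] H) (ε : ℝ) (hε : 0 < ε)
    (hq : ∀ S ∈ AlgL L, ‖S‖ ≤ 1 → ∃ m₀ : ℕ, ∀ m ≥ m₀, ‖(T * S) ^ m‖ ≤ ε ^ m)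
    (φ : (H →L[ℂ] H) → Prop)
    (P : H →L[ℂ] H) (hP : IsStarProjection P)
    (hPφ : ∀ D ∈ L.carrier, (φ D → D * P = P) ∧ (¬ φ D → D * P = 0))

include hP hPφ in
theorem corner_com (X : H →L[ℂ] H) : P * X * P ∈ ComL L := by
  have hPs : star P = P := star_proj hP
  have hPD : ∀ D ∈ L.carrier, (φ D → P * D = P) ∧ (¬ φ D → P * D = 0) := by
    intro D hD
    have hDs := star_proj (L.proj D hD)
    refine ⟨fun h => ?_, fun h => ?_⟩
    · have := congrArg star ((hPφ D hD).1 h)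
      rwa [star_mul, hPs, hDs] at this
    · have := congrArg star ((hPφ D hD).2 h)
      rwa [star_mul, hPs, hDs, star_zero] at this
  intro D hD
  by_cases h : φ D
  · calc D * (P * X * P) = (D * P) * X * P := by noncomm_ring
      _ = P * X * (P * D) := by rw [(hPφ D hD).1 h, (hPD D hD).1 h]
      _ = P * X * P * D := by noncomm_ring
  · calc D * (P * X * P) = (D * P) * X * P := by noncomm_ring
      _ = P * X * (P * D) := by rw [(hPφ D hD).2 h, (hPD D hD).2 h]; simp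
      _ = P * X * P * D := by noncomm_ring

include hε hq hP hPφ in
theorem corner1 (S : H →L[ℂ] H) (hS : S ∈ AlgL L) : ‖P * T * S * P‖ ≤ ε * ‖S‖ := by
  have hPP : P * P = P := mul_self_proj hP
  have hPs : star P = P := star_proj hP
  have hPn : ‖P‖ ≤ 1 := hP.norm_le
  set W := P * T * S * P with hWdef
  have hPW : P * W = W := by
    rw [hWdef, ← mul_assoc, ← mul_assoc, ← mul_assoc, hPP]
  have hWP : W * P = W := by
    rw [hWdef, mul_assoc _ P P, hPP]
  have hsWP : star W * P = star W := by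
    have := congrArg star hPW
    rwa [star_mul, hPs] at this
  have hPsW : P * star W = star W := by
    have := congrArg star hWP
    rwa [star_mul, hPs] at this
  by_cases hW0 : W = 0
  · rw [hW0, norm_zero]; positivity
  have hWpos : 0 < ‖W‖ := norm_pos_iff.mpr hW0
  have hSpos : 0 < ‖S‖ := by
    rw [norm_pos_iff]
    rintro rfl
    exact hW0 (by rw [hWdef]; simp)
  set S' := S * (P * star W * P) with hS'def
  have hS' : S' ∈ AlgL L := AlgL_mul L hS (ComL_sub_AlgL L (corner_com L φ P hP hPφ _))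
  have hS'n : ‖S'‖ ≤ ‖S‖ * ‖W‖ := by
    rw [hS'def, hPsW, hsWP]
    refine (norm_mul_le _ _).trans ?_
    rw [norm_star]
  have hpow : ∀ m : ℕ, P * (T * S') ^ (m + 1) = (W * star W) ^ (m + 1) := by
    have h1 : P * (T * S') = W * star W := by
      rw [hS'def, hPsW, hsWP, hWdef]
      have : P * T * S * P * star W = P * T * S * (P * star W) := by noncomm_ring
      rw [this, hPsW]; noncomm_ring
    intro m
    induction m with
    | zero => simpa using h1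
    | succ n ih =>
      rw [pow_succ (T * S'), ← mul_assoc, ih, pow_succ (W * star W) (n + 1)]
      have h2 : (W * star W) ^ (n + 1) = (W * star W) ^ (n + 1) * P := by
        rw [pow_succ, mul_assoc ((W * star W) ^ n) (W * star W) P, mul_assoc W (star W) P, hsWP]
      calc (W * star W) ^ (n + 1) * (T * S')
          = (W * star W) ^ (n + 1) * P * (T * S') := by rw [← h2]
        _ = (W * star W) ^ (n + 1) * (P * (T * S')) := by rw [mul_assoc]
        _ = (W * star W) ^ (n + 1) * (W * star W) := by rw [h1]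
  obtain ⟨m₀, hm⟩ := scale_hq L T ε hq S' hS' (‖S‖ * ‖W‖) (by positivity) hS'n
  have hb : 0 < ε * (‖S‖ * ‖W‖) := by positivity
  have key : ‖W‖ * ‖W‖ ≤ ε * (‖S‖ * ‖W‖) := by
    apply le_of_growth (K := ε * (‖S‖ * ‖W‖)) (by positivity) hb
    intro m₁
    have h1 : m₀ + m₁ < 2 ^ (m₀ + m₁) := Nat.lt_two_pow_self
    refine ⟨2 ^ (m₀ + m₁) - 1, by omega, ?_⟩
    have h3 : 2 ^ (m₀ + m₁) - 1 + 1 = 2 ^ (m₀ + m₁) := by omega
    have h4 := hpow (2 ^ (m₀ + m₁) - 1)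
    rw [h3] at h4
    rw [h3, ← norm_star_pow, ← h4, ← pow_succ', h3]
    calc ‖P * (T * S') ^ 2 ^ (m₀ + m₁)‖ ≤ ‖P‖ * ‖(T * S') ^ 2 ^ (m₀ + m₁)‖ := norm_mul_le _ _
      _ ≤ 1 * (ε * (‖S‖ * ‖W‖)) ^ 2 ^ (m₀ + m₁) := by
          apply mul_le_mul hPn (hm _ (by omega)) (norm_nonneg _) zero_le_one
      _ = _ := one_mul _
  have : ‖W‖ * ‖W‖ ≤ (ε * ‖S‖) * ‖W‖ := by linarith
  exact le_of_mul_le_mul_right this hWpos

include hε hq hP hPφ in
theorem corner2 (S : H →L[ℂ] H) (hS : S ∈ AlgL L) : ‖P * S * T * P‖ ≤ ε * ‖S‖ := by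
  have hPP : P * P = P := mul_self_proj hP
  have hPs : star P = P := star_proj hP
  set W := P * S * T * P with hWdef
  have hPW : P * W = W := by
    rw [hWdef, ← mul_assoc, ← mul_assoc, ← mul_assoc, hPP]
  have hWP : W * P = W := by
    rw [hWdef, mul_assoc _ P P, hPP]
  have hsWP : star W * P = star W := by
    have := congrArg star hPW
    rwa [star_mul, hPs] at this
  have hPsW : P * star W = star W := by
    have := congrArg star hWP
    rwa [star_mul, hPs] at this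
  by_cases hW0 : W = 0
  · rw [hW0, norm_zero]; positivity
  have hWpos : 0 < ‖W‖ := norm_pos_iff.mpr hW0
  have hSpos : 0 < ‖S‖ := by
    rw [norm_pos_iff]
    rintro rfl
    exact hW0 (by rw [hWdef]; simp)
  set S' := (P * star W * P) * S with hS'def
  have hS' : S' ∈ AlgL L := AlgL_mul L (ComL_sub_AlgL L (corner_com L φ P hP hPφ _)) hS
  have hS'2 : S' = star W * S := by rw [hS'def, hPsW, hsWP]
  have hS'n : ‖S'‖ ≤ ‖S‖ * ‖W‖ := by
    rw [hS'2]
    refine (norm_mul_le _ _).trans ?_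
    rw [norm_star, mul_comm]
  have hpow : ∀ m : ℕ, P * S * (T * S') ^ m * (T * star W) = (W * star W) ^ (m + 1) := by
    have h0 : P * S * T * star W = W * star W := by
      rw [hWdef]
      have : P * S * T * P * star W = P * S * T * (P * star W) := by noncomm_ring
      rw [this, hPsW]
    intro m
    induction m with
    | zero =>
      rw [pow_zero, mul_one, zero_add, pow_one, ← mul_assoc, h0]
    | succ n ih =>
      calc P * S * (T * S') ^ (n + 1) * (T * star W)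
          = P * S * (T * S') ^ n * (T * S') * (T * star W) := by
            rw [pow_succ]; noncomm_ring
        _ = P * S * (T * S') ^ n * (T * (star W * S)) * (T * star W) := by rw [hS'2]
        _ = (P * S * (T * S') ^ n * (T * star W)) * (S * T * star W) := by noncomm_ring
        _ = (W * star W) ^ (n + 1) * (S * T * star W) := by rw [ih]
        _ = (W * star W) ^ (n + 1) * P * (S * T * star W) := by
            have h2 : (W * star W) ^ (n + 1) = (W * star W) ^ (n + 1) * P := by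
              rw [pow_succ, mul_assoc ((W * star W) ^ n) (W * star W) P,
                mul_assoc W (star W) P, hsWP]
            rw [← h2]
        _ = (W * star W) ^ (n + 1) * (P * S * T * star W) := by noncomm_ring
        _ = (W * star W) ^ (n + 1 + 1) := by rw [h0, ← pow_succ]
  obtain ⟨m₀, hm⟩ := scale_hq L T ε hq S' hS' (‖S‖ * ‖W‖) (by positivity) hS'n
  have hb : 0 < ε * (‖S‖ * ‖W‖) := by positivity
  have key : ‖W‖ * ‖W‖ ≤ ε * (‖S‖ * ‖W‖) := by
    apply le_of_growth (K := ‖P * S‖ * ‖T * star W‖) (by positivity) hb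
    intro m₁
    have h1 : m₀ + m₁ < 2 ^ (m₀ + m₁) := Nat.lt_two_pow_self
    refine ⟨2 ^ (m₀ + m₁) - 1, by omega, ?_⟩
    have h3 : 2 ^ (m₀ + m₁) - 1 + 1 = 2 ^ (m₀ + m₁) := by omega
    have h4 := hpow (2 ^ (m₀ + m₁) - 1)
    have h5 := hm (2 ^ (m₀ + m₁) - 1) (by omega)
    rw [h3] at h4
    rw [h3, ← norm_star_pow, ← h4]
    set k := 2 ^ (m₀ + m₁) - 1 with hk
    calc ‖P * S * (T * S') ^ k * (T * star W)‖
        ≤ ‖P * S * (T * S') ^ k‖ * ‖T * star W‖ := norm_mul_le _ _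
      _ ≤ (‖P * S‖ * ‖(T * S') ^ k‖) * ‖T * star W‖ :=
          mul_le_mul_of_nonneg_right (norm_mul_le _ _) (norm_nonneg _)
      _ ≤ (‖P * S‖ * (ε * (‖S‖ * ‖W‖)) ^ k) * ‖T * star W‖ :=
          mul_le_mul_of_nonneg_right
            (mul_le_mul_of_nonneg_left h5 (norm_nonneg _)) (norm_nonneg _)
      _ = ‖P * S‖ * ‖T * star W‖ * (ε * (‖S‖ * ‖W‖)) ^ k := by ring
  have : ‖W‖ * ‖W‖ ≤ (ε * ‖S‖) * ‖W‖ := by linarith
  exact le_of_mul_le_mul_right this hWpos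

theorem proj_symm {Q : H →L[ℂ] H} (hQ : IsStarProjection Q) (x y : H) :
    ⟪Q x, y⟫_ℂ = ⟪x, Q y⟫_ℂ := hQ.isSelfAdjoint.isSymmetric x y

include hε hq hP hPφ in
theorem corner3 (hP0 : P ≠ 0) (D : H →L[ℂ] H) (hD : D ∈ L.carrier)
    (hDmin : ∀ D' ∈ L.carrier, φ D' → D' * D = D) : ‖P * T * D‖ ≤ ε := by
  have hPP : P * P = P := mul_self_proj hP
  obtain ⟨v, hv⟩ : ∃ v, P v ≠ 0 := by
    by_contra hcon
    push Not at hcon
    exact hP0 (ContinuousLinearMap.ext hcon)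
  have hxP : P (P v) = P v := congrArg (fun Z : H →L[ℂ] H => Z v) hPP
  have hx0 : 0 < ‖P v‖ := norm_pos_iff.mpr hv
  refine ContinuousLinearMap.opNorm_le_bound _ hε.le (fun z => ?_)
  set x := P v with hxdef
  set y := D z with hydef
  have hDy : D y = y := congrArg (fun Z : H →L[ℂ] H => Z z) (mul_self_proj (L.proj D hD))
  set R : H →L[ℂ] H := (innerSL ℂ x).smulRight y with hR
  have hRz : ∀ w, R w = ⟪x, w⟫_ℂ • y := fun w => rfl
  have hRn : ‖R‖ = ‖x‖ * ‖y‖ := by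
    rw [hR, ContinuousLinearMap.norm_smulRight_apply, innerSL_apply_norm]
  have hRA : R ∈ AlgL L := by
    intro D' hD'
    ext w
    change (1 - D') (R (D' w)) = 0
    rw [hRz, map_smul]
    by_cases h : φ D'
    · have h1 : D' y = y := congrArg (fun Z : H →L[ℂ] H => Z z) (hDmin D' hD' h)
      change ⟪x, D' w⟫_ℂ • (y - D' y) = 0
      rw [h1, sub_self, smul_zero]
    · have h1 : D' x = 0 := congrArg (fun Z : H →L[ℂ] H => Z v) ((hPφ D' hD').2 h)
      rw [← proj_symm (L.proj D' hD'), h1, inner_zero_left, zero_smul]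
  have h1 := corner1 L T ε hε hq φ P hP hPφ R hRA
  have h2 : (P * T * R * P) x = ⟪x, x⟫_ℂ • (P * T) y := by
    change P (T (R (P x))) = _
    rw [hxP, hRz, map_smul, map_smul]
    rfl
  have h3 : ‖(P * T * R * P) x‖ ≤ ε * (‖x‖ * ‖y‖) * ‖x‖ := by
    refine (ContinuousLinearMap.le_opNorm _ _).trans ?_
    rw [← hRn]
    exact mul_le_mul_of_nonneg_right h1 (norm_nonneg _)
  rw [h2, norm_smul, inner_self_eq_norm_sq_to_K, norm_pow, RCLike.norm_ofReal, abs_norm] at h3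
  have h4 : ‖(P * T) y‖ ≤ ε * ‖y‖ := by
    have h5 : ‖x‖ ^ 2 * ‖(P * T) y‖ ≤ ‖x‖ ^ 2 * (ε * ‖y‖) := by
      calc _ ≤ ε * (‖x‖ * ‖y‖) * ‖x‖ := h3
        _ = _ := by ring
    exact le_of_mul_le_mul_left h5 (by positivity)
  have h5 : ‖y‖ ≤ ‖z‖ := by
    rw [hydef]
    calc ‖D z‖ ≤ ‖D‖ * ‖z‖ := D.le_opNorm z
      _ ≤ 1 * ‖z‖ := mul_le_mul_of_nonneg_right (L.proj D hD).norm_le (norm_nonneg _)
      _ = ‖z‖ := one_mul _
  calc ‖(P * T * D) z‖ = ‖(P * T) y‖ := rfl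
    _ ≤ ε * ‖y‖ := h4
    _ ≤ ε * ‖z‖ := mul_le_mul_of_nonneg_left h5 hε.le

include hε hq hP hPφ in
theorem corner4 (hP0 : P ≠ 0) (D : H →L[ℂ] H) (hD : D ∈ L.carrier)
    (hDmax : ∀ D' ∈ L.carrier, ¬ φ D' → D * D' = D') : ‖(1 - D) * T * P‖ ≤ ε := by
  have hPP : P * P = P := mul_self_proj hP
  obtain ⟨v, hv⟩ : ∃ v, P v ≠ 0 := by
    by_contra hcon
    push Not at hcon
    exact hP0 (ContinuousLinearMap.ext hcon)
  have hxP : P (P v) = P v := congrArg (fun Z : H →L[ℂ] H => Z v) hPP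
  have hx0 : 0 < ‖P v‖ := norm_pos_iff.mpr hv
  refine ContinuousLinearMap.opNorm_le_bound _ hε.le (fun z => ?_)
  set x := P v with hxdef
  set y := ((1 - D) * T * P) z with hydef
  have hDp := (L.proj D hD).one_sub
  have hy' : y = (1 - D) (T (P z)) := rfl
  set R : H →L[ℂ] H := (innerSL ℂ y).smulRight x with hR
  have hRz : ∀ w, R w = ⟪y, w⟫_ℂ • x := fun w => rfl
  have hRn : ‖R‖ = ‖y‖ * ‖x‖ := by
    rw [hR, ContinuousLinearMap.norm_smulRight_apply, innerSL_apply_norm]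
  have hRA : R ∈ AlgL L := by
    intro D' hD'
    ext w
    change (1 - D') (R (D' w)) = 0
    rw [hRz, map_smul]
    by_cases h : φ D'
    · have h1 : D' x = x := congrArg (fun Z : H →L[ℂ] H => Z v) ((hPφ D' hD').1 h)
      change ⟪y, D' w⟫_ℂ • (x - D' x) = 0
      rw [h1, sub_self, smul_zero]
    · have h1 : D' y = 0 := by
        have e1 : D' * (1 - D) = 0 := by
          have := congrArg star (hDmax D' hD' h)
          rw [star_mul, star_proj (L.proj D hD), star_proj (L.proj D' hD')] at this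
          rw [mul_sub, mul_one, this, sub_self]
        have := congrArg (fun Z : H →L[ℂ] H => Z (T (P z))) e1
        rw [hy']
        exact this
      rw [← proj_symm (L.proj D' hD'), h1, inner_zero_left, zero_smul]
  have h1 := corner2 L T ε hε hq φ P hP hPφ R hRA
  have h2 : (P * R * T * P) z = ⟪y, y⟫_ℂ • x := by
    change P (R (T (P z))) = _
    rw [hRz, map_smul, hxP]
    congr 1
    have e1 : (1 - D) y = y := congrArg (fun Z : H →L[ℂ] H => Z (T (P z))) (mul_self_proj hDp)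
    calc ⟪y, T (P z)⟫_ℂ = ⟪(1 - D) y, T (P z)⟫_ℂ := by rw [e1]
      _ = ⟪y, (1 - D) (T (P z))⟫_ℂ := proj_symm hDp _ _
  have h3 : ‖(P * R * T * P) z‖ ≤ ε * (‖y‖ * ‖x‖) * ‖z‖ := by
    refine (ContinuousLinearMap.le_opNorm _ _).trans ?_
    rw [← hRn]
    exact mul_le_mul_of_nonneg_right h1 (norm_nonneg _)
  rw [h2, norm_smul, inner_self_eq_norm_sq_to_K, norm_pow, RCLike.norm_ofReal, abs_norm] at h3
  by_cases hy0 : ‖y‖ = 0
  · rw [hy0]; positivity
  have hypos : 0 < ‖y‖ := lt_of_le_of_ne (norm_nonneg _) (Ne.symm hy0)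
  have h5 : (‖y‖ * ‖x‖) * ‖y‖ ≤ (‖y‖ * ‖x‖) * (ε * ‖z‖) := by
    calc _ = ‖y‖ ^ 2 * ‖x‖ := by ring
      _ ≤ _ := h3
      _ = _ := by ring
  exact le_of_mul_le_mul_left h5 (by positivity)

include hε hq hP hPφ in
theorem cornerQ (hφ : IsHom2 L φ) :
    ∃ E, InPhi L φ E ∧ ‖P * T * E‖ ≤ ε ∧ ‖E * T * P‖ ≤ ε := by
  by_cases hP0 : P = 0
  · refine ⟨1, ⟨1, L.one_mem, 0, L.zero_mem, by simp, hφ.one, hφ.zero, by simp⟩, ?_, ?_⟩ <;>
      simp [hP0, hε.le]
  obtain ⟨D1, hD1, hD1a, hD1b⟩ := Hop.CSL.exists_inf L {D | D ∈ L.carrier ∧ φ D} (fun D h => h.1)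
  obtain ⟨D2, hD2, hD2a, hD2b⟩ := Hop.CSL.exists_sup L {D | D ∈ L.carrier ∧ ¬ φ D} (fun D h => h.1)
  have hD1P : D1 * P = P := by
    ext x
    apply hD1b
    rintro D ⟨hD, hφD⟩
    exact congrArg (fun Z : H →L[ℂ] H => Z x) ((hPφ D hD).1 hφD)
  have hD2P : D2 * P = 0 := by
    ext x
    apply hD2b
    rintro D ⟨hD, hφD⟩
    exact congrArg (fun Z : H →L[ℂ] H => Z x) ((hPφ D hD).2 hφD)
  have hφ1 : φ D1 := by
    by_contra h
    have := (hPφ D1 hD1).2 h
    rw [hD1P] at this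
    exact hP0 this
  have hφ2 : ¬ φ D2 := by
    intro h
    have := (hPφ D2 hD2).1 h
    rw [hD2P] at this
    exact hP0 this.symm
  have c3 := corner3 L T ε hε hq φ P hP hPφ hP0 D1 hD1 (fun D' h h' => hD1a D' ⟨h, h'⟩)
  have c4 := corner4 L T ε hε hq φ P hP hPφ hP0 D2 hD2 (fun D' h h' => hD2a D' ⟨h, h'⟩)
  have hcom := L.comm D1 hD1 D2 hD2
  refine ⟨D1 - D1 * D2, ⟨D1, hD1, D1 * D2, L.inf_mem _ hD1 _ hD2, ?_, hφ1, ?_, rfl⟩, ?_, ?_⟩
  · rw [mul_assoc, ← hcom, ← mul_assoc, mul_self_proj (L.proj _ hD1)]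
  · intro h
    exact hφ2 ((hφ.inf _ hD1 _ hD2).1 h).2
  · have e : P * T * (D1 - D1 * D2) = P * T * D1 * (1 - D2) := by noncomm_ring
    rw [e]
    calc ‖P * T * D1 * (1 - D2)‖ ≤ ‖P * T * D1‖ * ‖1 - D2‖ := norm_mul_le _ _
      _ ≤ ε * 1 := mul_le_mul c3 (L.proj D2 hD2).one_sub.norm_le (norm_nonneg _) hε.le
      _ = ε := mul_one _
  · have e : (D1 - D1 * D2) * T * P = D1 * ((1 - D2) * T * P) := by noncomm_ring
    rw [e]
    calc ‖D1 * ((1 - D2) * T * P)‖ ≤ ‖D1‖ * ‖(1 - D2) * T * P‖ := norm_mul_le _ _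
      _ ≤ 1 * ε := mul_le_mul (L.proj D1 hD1).norm_le c4 (norm_nonneg _) zero_le_one
      _ = ε := one_mul _

end corner

end Pool.Agent.Y283.CSLQ
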