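import Pool.Agent.Y283.CSL.Key

set_option maxHeartbeats 4000000

open scoped InnerProductSpace Topology ComplexConjugate ENNReal
open Finset Filter Hop

namespace Pool.Agent.Y283.CSLQ

variable {H : Type*} [NormedAddCommGroup H] [InnerProductSpace ℂ H] [CompleteSpace H]

theorem infDist_le_bdiag (L : CSL H) {N : ℕ} {D : ℕ → (H →L[ℂ] H)} (hD : IsChn L N D)
    (T : algL L) :
    Metric.infDist T (Ring.jacobson (algL L) : Set (algL L)) ≤ ‖bdiag N D (T : H →L[ℂ] H)‖ := by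
  obtain ⟨R, hR, hRe⟩ := sub_bdiag_mem L hD T T.2
  refine (Metric.infDist_le_dist_of_mem hR).trans ?_
  rw [dist_eq_norm]
  have h1 : ‖T - R‖ = ‖(T : H →L[ℂ] H) - (R : H →L[ℂ] H)‖ := rfl
  rw [h1, hRe, sub_sub_cancel]

theorem phiNorm_le_infDist (L : CSL H) (T : algL L) (φ : (H →L[ℂ] H) → Prop)
    (hφ : IsHom2 L φ) :
    phiNorm L φ (T : H →L[ℂ] H) ≤ Metric.infDist T (Ring.jacobson (algL L) : Set (algL L)) := by
  rw [Metric.le_infDist ⟨0, Submodule.zero_mem _⟩]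
  intro R hR
  rw [dist_eq_norm]
  exact phiNorm_le_sub hφ T R ((Hop.result L R).1 hR φ hφ)

theorem infDist_le_of_phi (L : CSL H) (T : algL L) (c : ℝ) (hc : 0 ≤ c)
    (h : ∀ φ, IsHom2 L φ → phiNorm L φ (T : H →L[ℂ] H) ≤ c) :
    Metric.infDist T (Ring.jacobson (algL L) : Set (algL L)) ≤ c := by
  apply le_of_forall_pos_le_add
  intro δ hδ
  obtain ⟨N, D, hD, hb⟩ := compact_hom L (T : H →L[ℂ] H) (c + δ)
    (fun φ hφ => exists_of_phiNorm_lt hφ (lt_of_le_of_lt (h φ hφ) (by linarith)))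
  exact (infDist_le_bdiag L hD T).trans
    (norm_bdiag_le L hD T (c + δ) (by positivity) (fun k hk => (hb k hk).le))

/-- chains which almost realise the distance -/
theorem exists_chain_infDist (L : CSL H) (T : algL L) (c : ℝ)
    (hc : Metric.infDist T (Ring.jacobson (algL L) : Set (algL L)) < c) :
    ∃ (N : ℕ) (D : ℕ → (H →L[ℂ] H)), IsChn L N D ∧
      ∀ k < N, ‖blk D k * (T : H →L[ℂ] H) * blk D k‖ < c :=
  compact_hom L (T : H →L[ℂ] H) c
    (fun φ hφ => exists_of_phiNorm_lt hφ (lt_of_le_of_lt (phiNorm_le_infDist L T φ hφ) hc))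

theorem infDist_growth (L : CSL H) (T : algL L) (η : ℝ)
    (hη : Metric.infDist T (Ring.jacobson (algL L) : Set (algL L)) < η) :
    ∃ M : ℝ, 0 ≤ M ∧ ∀ l : List (algL L), (∀ S ∈ l, ‖S‖ ≤ 1) →
      ‖(l.map (fun S => T * S)).prod‖ ≤ M * η ^ l.length := by
  obtain ⟨c, hc1, hc2⟩ := exists_between hη
  have hc0 : 0 ≤ c := le_trans Metric.infDist_nonneg hc1.le
  obtain ⟨N, D, hD, hb⟩ := exists_chain_infDist L T c hc1
  obtain ⟨M, hM, hl⟩ := joint_growth L hD T T.2 c η hc0 hc2 (fun k hk => (hb k hk).le)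
  refine ⟨M, hM, fun l h => ?_⟩
  have h1 := hl (l.map (fun S : algL L => (S : H →L[ℂ] H))) (by
    intro S hS
    rw [List.mem_map] at hS
    obtain ⟨S', hS', rfl⟩ := hS
    exact ⟨S'.2, h S' hS'⟩)
  rw [List.length_map, List.map_map] at h1
  have h2 : (((l.map (fun S => T * S)).prod : algL L) : H →L[ℂ] H) =
      (List.map ((fun S => (T : H →L[ℂ] H) * S) ∘ fun S : algL L => (S : H →L[ℂ] H)) l).prod := by
    have h3 := map_list_prod (algL L).val (l.map (fun S => T * S))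
    rw [List.map_map] at h3
    exact h3
  have h4 : ‖(l.map (fun S => T * S)).prod‖ =
      ‖(((l.map (fun S => T * S)).prod : algL L) : H →L[ℂ] H)‖ := rfl
  rw [h4, h2]
  exact h1

theorem algL_complete (L : CSL H) : CompleteSpace (algL L) := by
  have hcl : IsClosed ((algL L : Subalgebra ℂ (H →L[ℂ] H)) : Set (H →L[ℂ] H)) := hopR1_closed L
  exact hcl.completeSpace_coe

theorem pow_bound {a b K : ℝ} (hb : 0 < b) (h : ∀ m : ℕ, a ^ m ≤ K * b ^ m) (ha : 0 ≤ a) :
    a ≤ b := by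
  apply le_of_growth (K := K * b) ha hb
  intro m₀
  refine ⟨m₀, le_rfl, (h (m₀ + 1)).trans (le_of_eq ?_)⟩
  rw [pow_succ]; ring

theorem spectrum_le_infDist (L : CSL H) (T S : algL L) (hS : ‖S‖ ≤ 1) (z : ℂ)
    (hz : z ∈ spectrum ℂ (T * S)) :
    ‖z‖ ≤ Metric.infDist T (Ring.jacobson (algL L) : Set (algL L)) := by
  have := algL_complete L
  apply le_of_forall_pos_le_add
  intro δ hδ
  have hη : Metric.infDist T (Ring.jacobson (algL L) : Set (algL L)) <
      Metric.infDist T (Ring.jacobson (algL L) : Set (algL L)) + δ := by linarith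
  obtain ⟨M, hM, hl⟩ := infDist_growth L T _ hη
  set η := Metric.infDist T (Ring.jacobson (algL L) : Set (algL L)) + δ with hηdef
  have hη0 : 0 < η := by
    have := Metric.infDist_nonneg (x := T) (s := (Ring.jacobson (algL L) : Set (algL L)))
    rw [hηdef]; linarith
  apply pow_bound (K := M * ‖(1 : algL L)‖) hη0 _ (norm_nonneg _)
  intro m
  have h1 := spectrum.norm_le_norm_mul_of_mem (spectrum.pow_mem_pow (T * S) m hz)
  rw [norm_pow] at h1
  have h2 := hl (List.replicate m S) (by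
    intro S' hS'
    rw [List.eq_of_mem_replicate hS']
    exact hS)
  rw [List.map_replicate, List.prod_replicate, List.length_replicate] at h2
  calc ‖z‖ ^ m ≤ ‖(T * S) ^ m‖ * ‖(1 : algL L)‖ := h1
    _ ≤ (M * η ^ m) * ‖(1 : algL L)‖ := mul_le_mul_of_nonneg_right h2 (norm_nonneg _)
    _ = M * ‖(1 : algL L)‖ * η ^ m := by ring

theorem infDist_le_of_hq (L : CSL H) (T : algL L) (ε : ℝ) (hε : 0 < ε)
    (hq : ∀ S ∈ AlgL L, ‖S‖ ≤ 1 → ∃ m₀ : ℕ, ∀ m ≥ m₀, ‖((T : H →L[ℂ] H) * S) ^ m‖ ≤ ε ^ m) :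
    Metric.infDist T (Ring.jacobson (algL L) : Set (algL L)) ≤ 1202 * ε :=
  infDist_le_of_phi L T _ (by positivity) (fun φ hφ => keyQ' L T T.2 ε hε hq φ hφ)

theorem infDist_le_of_spectralRadius (L : CSL H) (T : algL L) (r : ℝ) (hr : 0 ≤ r)
    (h : ∀ S : algL L, ‖S‖ ≤ 1 → spectralRadius ℂ (T * S) ≤ ENNReal.ofReal r) :
    Metric.infDist T (Ring.jacobson (algL L) : Set (algL L)) ≤ 1202 * r := by
  have := algL_complete L
  have key : ∀ δ > 0, Metric.infDist T (Ring.jacobson (algL L) : Set (algL L)) ≤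
      1202 * (r + δ) := by
    intro δ hδ
    apply infDist_le_of_hq L T (r + δ) (by positivity)
    intro S hS hS1
    have h0 : 0 < r + δ := by positivity
    have hsr : spectralRadius ℂ (T * (⟨S, hS⟩ : algL L)) < ENNReal.ofReal (r + δ) :=
      lt_of_le_of_lt (h ⟨S, hS⟩ hS1) ((ENNReal.ofReal_lt_ofReal_iff h0).2 (by linarith))
    have hg := spectrum.pow_norm_pow_one_div_tendsto_nhds_spectralRadius (T * (⟨S, hS⟩ : algL L))
    have hev := hg.eventually_lt_const hsr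
    obtain ⟨m₀, hm₀⟩ := (hev.and (eventually_ge_atTop 1)).exists_forall_of_atTop
    refine ⟨m₀, fun m hm => ?_⟩
    obtain ⟨h1, h2⟩ := hm₀ m hm
    rw [ENNReal.ofReal_lt_ofReal_iff h0] at h1
    have h3 : ‖(T * (⟨S, hS⟩ : algL L)) ^ m‖ =
        (‖(T * (⟨S, hS⟩ : algL L)) ^ m‖ ^ (1 / m : ℝ)) ^ m := by
      rw [one_div, Real.rpow_inv_natCast_pow (norm_nonneg _) (by omega)]
    have h4 : ‖(T * (⟨S, hS⟩ : algL L)) ^ m‖ ≤ (r + δ) ^ m := by
      rw [h3]
      exact pow_le_pow_left₀ (by positivity) h1.le m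
    exact h4
  apply le_of_forall_pos_le_add
  intro δ hδ
  have := key (δ / 1202) (by positivity)
  linarith

end Pool.Agent.Y283.CSLQ
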