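import Pool.Agent.Y283.CSL.Cor

set_option maxHeartbeats 4000000

open scoped InnerProductSpace Topology ComplexConjugate
open Finset Filter Hop

namespace Pool.Agent.Y283.CSLQ

variable {H : Type*} [NormedAddCommGroup H] [InnerProductSpace ℂ H] [CompleteSpace H]

theorem keyQ (L : CSL H) (T : H →L[ℂ] H) (hT : T ∈ AlgL L) (hT1 : ‖T‖ ≤ 1)
    (ε : ℝ) (hε : 0 < ε)
    (hq : ∀ S ∈ AlgL L, ‖S‖ ≤ 1 → ∃ m₀ : ℕ, ∀ m ≥ m₀, ‖(T * S) ^ m‖ ≤ ε ^ m)
    (φ : (H →L[ℂ] H) → Prop) (hφ : IsHom2 L φ) :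
    ∃ E, InPhi L φ E ∧ ‖E * T * E‖ ≤ 1202 * ε := by
  obtain ⟨P, hP, hPB, hPE, hPlim⟩ := fin_atom L φ hφ
  have hPφ : ∀ D ∈ L.carrier, (φ D → D * P = P) ∧ (¬ φ D → D * P = 0) := by
    intro D hD
    refine ⟨fun h => ?_, fun h => ?_⟩
    · have := hPE D ⟨D, hD, 0, L.zero_mem, by simp, h, hφ.zero, by simp⟩
      exact this
    · have := hPE (1 - D) ⟨1, L.one_mem, D, hD, by simp, hφ.one, h, rfl⟩
      rw [sub_mul, one_mul] at this
      simpa using this
  obtain ⟨E, hE, B, hB, hFS⟩ := localiseQ L T hT hT1 φ hφ P hP hPB hPE hPlim ε hε hq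
  have hEP := hPE E hE
  have hEPp : IsStarProjection (E - P) :=
    hP.sub_of_mul_eq_left (fin_InPhi_proj hE) (by
      have := congrArg star hEP
      rw [star_mul, star_proj hP, star_proj (fin_InPhi_proj hE)] at this
      exact this)
  have hEPm : E - P ∈ AlgL L := ComL_sub_AlgL L (ComL_sub L
    (BiComL_sub_ComL L (fin_InPhi_BiComL hE)) (BiComL_sub_ComL L hPB))
  obtain ⟨E', hE', hE'n⟩ := main_small L B ε hB hε ((E - P) * T * (E - P))
    (AlgL_mul L (AlgL_mul L hEPm hT) hEPm)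
    (le_trans (fin_norm_compress hEPp) hT1) hFS φ hφ
  obtain ⟨E₃, hE₃, hc1, hc2⟩ := cornerQ L T ε hε hq φ P hP hPφ hφ
  have hEE' := fin_InPhi_mul hφ hE hE'
  have hF := fin_InPhi_mul hφ hEE' hE₃
  set F := E * E' * E₃ with hFdef
  have hFp := fin_InPhi_proj hF
  have hFP : F * P = P := hPE F hF
  have hPF : P * F = P := by
    have := congrArg star hFP
    rw [star_mul, star_proj hP, star_proj hFp] at this
    exact this
  have hF3 : F = E₃ * F := by
    rw [hFdef, ← mul_assoc, ← fin_InPhi_comm hEE' hE₃, mul_assoc (E * E'),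
      mul_self_proj (fin_InPhi_proj hE₃)]
  have hF3' : F = F * E₃ := by
    rw [hFdef, mul_assoc (E * E'), mul_self_proj (fin_InPhi_proj hE₃)]
  have hFE : F * E = F := by
    rw [fin_InPhi_comm hF hE, hFdef, ← mul_assoc, ← mul_assoc,
      mul_self_proj (fin_InPhi_proj hE)]
  have hFE' : F * E' = F := by
    have e1 : E₃ * E' = E' * E₃ := fin_InPhi_comm hE₃ hE'
    rw [hFdef, mul_assoc (E * E'), e1, ← mul_assoc, mul_assoc E, mul_self_proj (fin_InPhi_proj hE')]
  have hPEs : P * E = P := by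
    have := congrArg star hEP
    rw [star_mul, star_proj hP, star_proj (fin_InPhi_proj hE)] at this
    exact this
  have hPE's : P * E' = P := by
    have := congrArg star (hPE E' hE')
    rw [star_mul, star_proj hP, star_proj (fin_InPhi_proj hE')] at this
    exact this
  have hPE₃s : P * E₃ = P := by
    have := congrArg star (hPE E₃ hE₃)
    rw [star_mul, star_proj hP, star_proj (fin_InPhi_proj hE₃)] at this
    exact this
  have hG : IsStarProjection (F - P) := hP.sub_of_mul_eq_left hFp hPF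
  have g1 : (F - P) * (E - P) = F - P := by
    rw [sub_mul, mul_sub, mul_sub, hFE, hFP, hPEs, mul_self_proj hP]; abel
  have g2 : (F - P) * E' = F - P := by rw [sub_mul, hFE', hPE's]
  have g3 : (F - P) * E₃ = F - P := by rw [sub_mul, ← hF3', hPE₃s]
  have g1' : (E - P) * (F - P) = F - P := by
    have := congrArg star g1
    rw [star_mul, star_proj hG, star_proj hEPp] at this
    exact this
  have g2' : E' * (F - P) = F - P := by
    have := congrArg star g2
    rw [star_mul, star_proj hG, star_proj (fin_InPhi_proj hE')] at this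
    exact this
  have z1 : ‖P * T * F‖ ≤ ε := by
    rw [hF3, ← mul_assoc]
    calc ‖P * T * E₃ * F‖ ≤ ‖P * T * E₃‖ * ‖F‖ := norm_mul_le _ _
      _ ≤ ε * 1 := mul_le_mul hc1 hFp.norm_le (norm_nonneg _) hε.le
      _ = ε := mul_one _
  have z2 : ‖(F - P) * T * P‖ ≤ ε := by
    have : (F - P) * T * P = (F - P) * (E₃ * T * P) := by
      calc (F - P) * T * P = ((F - P) * E₃) * T * P := by rw [g3]
        _ = _ := by noncomm_ring
    rw [this]
    calc ‖(F - P) * (E₃ * T * P)‖ ≤ ‖F - P‖ * ‖E₃ * T * P‖ := norm_mul_le _ _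
      _ ≤ 1 * ε := mul_le_mul hG.norm_le hc2 (norm_nonneg _) zero_le_one
      _ = ε := one_mul _
  have e0 : F * T * F = (F - P) * T * (F - P) + (P * T * F) + ((F - P) * T * P) := by
    noncomm_ring
  have e2 : (F - P) * T * (F - P) = (F - P) * (E' * ((E - P) * T * (E - P)) * E') * (F - P) := by
    calc (F - P) * T * (F - P) = ((F - P) * (E - P)) * T * ((E - P) * (F - P)) := by rw [g1, g1']
      _ = (F - P) * ((E - P) * T * (E - P)) * (F - P) := by noncomm_ring
      _ = ((F - P) * E') * ((E - P) * T * (E - P)) * (E' * (F - P)) := by rw [g2, g2']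
      _ = _ := by noncomm_ring
  have z0 : ‖(F - P) * T * (F - P)‖ ≤ 1200 * ε := by
    rw [e2]
    exact le_trans (fin_norm_compress hG) hE'n
  refine ⟨F, hF, ?_⟩
  rw [e0]
  calc ‖(F - P) * T * (F - P) + (P * T * F) + ((F - P) * T * P)‖
      ≤ ‖(F - P) * T * (F - P) + (P * T * F)‖ + ‖(F - P) * T * P‖ := norm_add_le _ _
    _ ≤ ‖(F - P) * T * (F - P)‖ + ‖P * T * F‖ + ‖(F - P) * T * P‖ := by
        gcongr; exact norm_add_le _ _
    _ ≤ 1202 * ε := by linarith

theorem phi_bdd (L : CSL H) (φ : (H →L[ℂ] H) → Prop) (T : H →L[ℂ] H) :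
    BddBelow {r : ℝ | ∃ E, InPhi L φ E ∧ r = ‖E * T * E‖} :=
  ⟨0, by rintro r ⟨E, -, rfl⟩; exact norm_nonneg _⟩

theorem phiNorm_le {L : CSL H} {φ : (H →L[ℂ] H) → Prop} (T : H →L[ℂ] H) {E : H →L[ℂ] H}
    (hE : InPhi L φ E) : phiNorm L φ T ≤ ‖E * T * E‖ := csInf_le (phi_bdd L φ T) ⟨E, hE, rfl⟩

theorem phiNorm_nonneg (L : CSL H) (φ : (H →L[ℂ] H) → Prop) (T : H →L[ℂ] H) :
    0 ≤ phiNorm L φ T := by
  apply Real.sInf_nonneg
  rintro r ⟨E, -, rfl⟩
  exact norm_nonneg _

theorem exists_of_phiNorm_lt {L : CSL H} {φ : (H →L[ℂ] H) → Prop} (hφ : IsHom2 L φ)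
    {T : H →L[ℂ] H} {c : ℝ} (h : phiNorm L φ T < c) : ∃ E, InPhi L φ E ∧ ‖E * T * E‖ < c := by
  have h3 : {r : ℝ | ∃ E, InPhi L φ E ∧ r = ‖E * T * E‖}.Nonempty :=
    ⟨_, 1, fin_InPhi_one hφ, rfl⟩
  obtain ⟨r, ⟨E, hE, rfl⟩, hr⟩ := exists_lt_of_csInf_lt h3 h
  exact ⟨E, hE, hr⟩

/-- operators `T` in `Alg L` all of whose products `T S` have spectral radius at most `ε ‖S‖` -/
theorem keyQ' (L : CSL H) (T : H →L[ℂ] H) (hT : T ∈ AlgL L) (ε : ℝ) (hε : 0 < ε)
    (hq : ∀ S ∈ AlgL L, ‖S‖ ≤ 1 → ∃ m₀ : ℕ, ∀ m ≥ m₀, ‖(T * S) ^ m‖ ≤ ε ^ m)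
    (φ : (H →L[ℂ] H) → Prop) (hφ : IsHom2 L φ) : phiNorm L φ T ≤ 1202 * ε := by
  set c : ℝ := ‖T‖ + 1 with hc
  have hc0 : 0 < c := by rw [hc]; positivity
  have hcc : ((c : ℝ) : ℂ) ≠ 0 := by exact_mod_cast hc0.ne'
  set T₁ : H →L[ℂ] H := (((c : ℝ) : ℂ))⁻¹ • T with hT₁
  have hT₁n : ‖T₁‖ ≤ 1 := by
    rw [hT₁, norm_smul, norm_inv, Complex.norm_real, Real.norm_of_nonneg hc0.le,
      inv_mul_le_iff₀ hc0]
    linarith
  obtain ⟨E, hE, hEn⟩ := keyQ L T₁ (AlgL_smul L _ hT) hT₁n (ε / c) (by positivity) (by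
    intro S hS hS1
    obtain ⟨m₀, hm₀⟩ := hq S hS hS1
    refine ⟨m₀, fun m hm => ?_⟩
    have h1 := hm₀ m hm
    rw [hT₁, smul_mul_assoc, smul_pow, norm_smul, norm_pow, norm_inv, Complex.norm_real,
      Real.norm_of_nonneg hc0.le, div_pow, inv_pow, inv_mul_eq_div]
    exact div_le_div_of_nonneg_right h1 (by positivity)) φ hφ
  refine (phiNorm_le T hE).trans ?_
  have h2 : T = ((c : ℝ) : ℂ) • T₁ := by
    rw [hT₁, smul_smul, mul_inv_cancel₀ hcc, one_smul]
  rw [h2, mul_smul_comm, smul_mul_assoc, norm_smul, Complex.norm_real,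
    Real.norm_of_nonneg hc0.le]
  calc c * ‖E * T₁ * E‖ ≤ c * (1202 * (ε / c)) := mul_le_mul_of_nonneg_left hEn hc0.le
    _ = 1202 * ε := by field_simp

/-- `phiNorm` changes by at most `‖T - R‖` when `T` is replaced by `R` in `I_φ` -/
theorem phiNorm_le_sub {L : CSL H} {φ : (H →L[ℂ] H) → Prop} (hφ : IsHom2 L φ)
    (T R : H →L[ℂ] H) (hR : phiNorm L φ R = 0) : phiNorm L φ T ≤ ‖T - R‖ := by
  apply le_of_forall_pos_le_add
  intro δ hδ
  obtain ⟨E, hE, hER⟩ := exists_of_phiNorm_lt hφ (show phiNorm L φ R < δ by rw [hR]; exact hδ)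
  refine (phiNorm_le T hE).trans ?_
  have e : E * T * E = E * (T - R) * E + E * R * E := by noncomm_ring
  rw [e]
  refine (norm_add_le _ _).trans ?_
  exact add_le_add (fin_norm_compress (fin_InPhi_proj hE)) hER.le

/-- the difference of `T` and its block diagonal part lies in the radical -/
theorem sub_bdiag_mem (L : CSL H) {N : ℕ} {D : ℕ → (H →L[ℂ] H)} (hD : IsChn L N D)
    (T : H →L[ℂ] H) (hT : T ∈ AlgL L) :
    ∃ R : algL L, R ∈ Ring.jacobson (algL L) ∧ (R : H →L[ℂ] H) = T - bdiag N D T := by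
  have hbA : bdiag N D T ∈ AlgL L := by
    apply AlgL_sum
    intro k _
    have h1 : blk D k ∈ AlgL L := min_chain_sub_AlgL hD k (k + 1)
    exact AlgL_mul L (AlgL_mul L h1 hT) h1
  refine ⟨⟨T - bdiag N D T, AlgL_sub L hT hbA⟩, ?_, rfl⟩
  apply easy_inclusion
  intro ε hε
  refine ⟨N, D, hD, fun k hk => ?_⟩
  have h1 : blk D k * (T - bdiag N D T) * blk D k = 0 := by
    rw [mul_sub, m3_blk_bdiag hD T hk, sub_mul, mul_assoc (blk D k * T), mul_self_proj (blk_proj hD k),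
      sub_self]
  show ‖blk D k * (T - bdiag N D T) * blk D k‖ < ε
  rw [h1, norm_zero]
  exact hε

theorem norm_bdiag_le (L : CSL H) {N : ℕ} {D : ℕ → (H →L[ℂ] H)} (hD : IsChn L N D)
    (T : H →L[ℂ] H) (c : ℝ) (hc : 0 ≤ c) (h : ∀ k < N, ‖blk D k * T * blk D k‖ ≤ c) :
    ‖bdiag N D T‖ ≤ c :=
  min_chain_bdiag N (blk D) T c hc (fun k _ => blk_proj hD k)
    (fun j _ k _ hjk => blk_mul_blk_of_ne hD hjk) h

/-- products of operators with small blocks -/
theorem list_growth (L : CSL H) {N : ℕ} {D : ℕ → (H →L[ℂ] H)} (hD : IsChn L N D)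
    (K δ η : ℝ) (hK : 0 ≤ K) (hδ : 0 ≤ δ) (hη : δ < η) :
    ∀ j ≤ N, ∃ M : ℝ, 0 ≤ M ∧ ∀ l : List (H →L[ℂ] H),
      (∀ A ∈ l, A ∈ AlgL L ∧ ‖A‖ ≤ K ∧ ∀ k < N, ‖blk D k * A * blk D k‖ ≤ δ) →
      ‖(1 - D (N - j)) * l.prod‖ ≤ M * η ^ l.length := by
  have hη0 : 0 < η := lt_of_le_of_lt hδ hη
  intro j
  induction j with
  | zero =>
    intro _
    refine ⟨0, le_rfl, fun l _ => ?_⟩
    rw [Nat.sub_zero, hD.top, sub_self, zero_mul, norm_zero, zero_mul]
  | succ j ih =>
    intro hj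
    obtain ⟨M, hM, hl⟩ := ih (by omega)
    obtain ⟨k, hk⟩ : ∃ k, k = N - (j + 1) := ⟨_, rfl⟩
    have hk1 : N - j = k + 1 := by omega
    have hkN : k < N := by omega
    rw [hk1] at hl
    rw [← hk]
    set B := max 1 (K * M / (η - δ)) with hB
    have hBη : δ * B + K * M ≤ B * η := by
      have h1 : K * M / (η - δ) ≤ B := le_max_right _ _
      rw [div_le_iff₀ (by linarith)] at h1
      linarith
    have hB0 : 0 ≤ B := le_trans zero_le_one (le_max_left _ _)
    have hEp := blk_proj hD k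
    have hEE := mul_self_proj hEp
    have hblk : ∀ l : List (H →L[ℂ] H),
        (∀ A ∈ l, A ∈ AlgL L ∧ ‖A‖ ≤ K ∧ ∀ k < N, ‖blk D k * A * blk D k‖ ≤ δ) →
        ‖blk D k * l.prod‖ ≤ B * η ^ l.length := by
      intro l
      induction l with
      | nil =>
        intro _
        rw [List.prod_nil, mul_one, List.length_nil, pow_zero, mul_one]
        exact hEp.norm_le.trans (le_max_left _ _)
      | cons A l ihl =>
        intro h
        have h1 := ihl (fun X hX => h X (List.mem_cons_of_mem _ hX))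
        have h2 := hl l (fun X hX => h X (List.mem_cons_of_mem _ hX))
        obtain ⟨hA, hAK, hAδ⟩ := h A List.mem_cons_self
        have hAD : A * D k = D k * A * D k := (AlgL_iff L A).1 hA _ (hD.mem k)
        have hED : blk D k * D k = 0 := by
          rw [blk, sub_mul, chn_mul' hD (Nat.le_succ k), mul_self_proj (L.proj _ (hD.mem k)),
            sub_self]
        have e1 : blk D k * A * D k = 0 := by
          rw [mul_assoc, hAD]
          calc blk D k * (D k * A * D k) = (blk D k * D k) * A * D k := by noncomm_ring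
            _ = 0 := by rw [hED]; simp
        have hD1 : (1 : H →L[ℂ] H) = D k + blk D k + (1 - D (k + 1)) := by
          rw [blk]; abel
        have e2 : blk D k * (A * l.prod) = (blk D k * A * blk D k) * (blk D k * l.prod) +
            blk D k * A * ((1 - D (k + 1)) * l.prod) := by
          calc blk D k * (A * l.prod) = blk D k * A * 1 * l.prod := by noncomm_ring
            _ = blk D k * A * (D k + blk D k + (1 - D (k + 1))) * l.prod := by rw [← hD1]
            _ = (blk D k * A * D k) * l.prod + blk D k * A * blk D k * l.prod +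
                blk D k * A * ((1 - D (k + 1)) * l.prod) := by noncomm_ring
            _ = blk D k * A * (blk D k * blk D k) * l.prod +
                blk D k * A * ((1 - D (k + 1)) * l.prod) := by rw [e1, hEE]; simp
            _ = _ := by noncomm_ring
        rw [List.prod_cons, e2, List.length_cons]
        have h3 : ‖blk D k * A‖ ≤ K := by
          calc ‖blk D k * A‖ ≤ ‖blk D k‖ * ‖A‖ := norm_mul_le _ _
            _ ≤ 1 * K := mul_le_mul hEp.norm_le hAK (norm_nonneg _) zero_le_one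
            _ = K := one_mul _
        calc ‖(blk D k * A * blk D k) * (blk D k * l.prod) +
              blk D k * A * ((1 - D (k + 1)) * l.prod)‖
            ≤ ‖(blk D k * A * blk D k) * (blk D k * l.prod)‖ +
              ‖blk D k * A * ((1 - D (k + 1)) * l.prod)‖ := norm_add_le _ _
          _ ≤ ‖blk D k * A * blk D k‖ * ‖blk D k * l.prod‖ +
              ‖blk D k * A‖ * ‖(1 - D (k + 1)) * l.prod‖ :=
              add_le_add (norm_mul_le _ _) (norm_mul_le _ _)
          _ ≤ δ * (B * η ^ l.length) + K * (M * η ^ l.length) :=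
              add_le_add (mul_le_mul (hAδ k hkN) h1 (norm_nonneg _) hδ)
                (mul_le_mul h3 h2 (norm_nonneg _) hK)
          _ = (δ * B + K * M) * η ^ l.length := by ring
          _ ≤ (B * η) * η ^ l.length := mul_le_mul_of_nonneg_right hBη (by positivity)
          _ = B * η ^ (l.length + 1) := by ring
    refine ⟨B + M, by positivity, fun l h => ?_⟩
    have e3 : (1 - D k) * l.prod = blk D k * l.prod + (1 - D (k + 1)) * l.prod := by
      rw [blk]; noncomm_ring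
    rw [e3]
    calc ‖blk D k * l.prod + (1 - D (k + 1)) * l.prod‖
        ≤ ‖blk D k * l.prod‖ + ‖(1 - D (k + 1)) * l.prod‖ := norm_add_le _ _
      _ ≤ B * η ^ l.length + M * η ^ l.length := add_le_add (hblk l h) (hl l h)
      _ = (B + M) * η ^ l.length := by ring

/-- joint growth: if the block diagonal part of `T` for one finite chain has norm `< η`, then
`‖T S₁ T S₂ ⋯ T S_m‖ ≤ M η ^ m` for all `S_i` in the unit ball of `Alg L` -/
theorem joint_growth (L : CSL H) {N : ℕ} {D : ℕ → (H →L[ℂ] H)} (hD : IsChn L N D)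
    (T : H →L[ℂ] H) (hT : T ∈ AlgL L) (c η : ℝ) (hc : 0 ≤ c) (hη : c < η)
    (h : ∀ k < N, ‖blk D k * T * blk D k‖ ≤ c) :
    ∃ M : ℝ, 0 ≤ M ∧ ∀ l : List (H →L[ℂ] H), (∀ S ∈ l, S ∈ AlgL L ∧ ‖S‖ ≤ 1) →
      ‖(l.map (fun S => T * S)).prod‖ ≤ M * η ^ l.length := by
  obtain ⟨M, hM, hl⟩ := list_growth L hD ‖T‖ c η (norm_nonneg _) hc hη N le_rfl
  refine ⟨M, hM, fun l hlS => ?_⟩
  have h1 := hl (l.map (fun S => T * S)) (by
    intro A hA
    rw [List.mem_map] at hA
    obtain ⟨S, hS, rfl⟩ := hA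
    obtain ⟨hSA, hS1⟩ := hlS S hS
    refine ⟨AlgL_mul L hT hSA, ?_, fun k hk => ?_⟩
    · calc ‖T * S‖ ≤ ‖T‖ * ‖S‖ := norm_mul_le _ _
        _ ≤ ‖T‖ * 1 := mul_le_mul_of_nonneg_left hS1 (norm_nonneg _)
        _ = ‖T‖ := mul_one _
    · rw [R3_blk_mul L hD hT hSA k]
      calc ‖(blk D k * T * blk D k) * (blk D k * S * blk D k)‖
          ≤ ‖blk D k * T * blk D k‖ * ‖blk D k * S * blk D k‖ := norm_mul_le _ _
        _ ≤ c * 1 := mul_le_mul (h k hk) ((fin_norm_compress (blk_proj hD k)).trans hS1)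
            (norm_nonneg _) hc
        _ = c := mul_one _)
  rw [Nat.sub_self, hD.zero, sub_zero, one_mul, List.length_map] at h1
  exact h1

end Pool.Agent.Y283.CSLQ
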