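import Pool.Agent.Helper360.Hop.Final

set_option maxHeartbeats 4000000

open scoped InnerProductSpace Topology ComplexConjugate
open Finset Filter Hop

namespace Pool.Agent.Y283.CSLQ

variable {H : Type*} [NormedAddCommGroup H] [InnerProductSpace ℂ H] [CompleteSpace H]

/-- the localisation step of the proof library, run at one fixed level `ε` -/
theorem localiseQ (L : CSL H) (T : H →L[ℂ] H) (hT : T ∈ AlgL L) (hT1 : ‖T‖ ≤ 1)
    (φ : (H →L[ℂ] H) → Prop) (hφ : IsHom2 L φ)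
    (P : H →L[ℂ] H) (hP : IsStarProjection P) (hPB : P ∈ BiComL L)
    (hPE : ∀ E, InPhi L φ E → E * P = P)
    (hPlim : ∀ x : H, ∀ η > 0, ∃ E, InPhi L φ E ∧ ‖(E - P) x‖ < η)
    (ε : ℝ) (hε : 0 < ε)
    (hq : ∀ S ∈ AlgL L, ‖S‖ ≤ 1 → ∃ m₀ : ℕ, ∀ m ≥ m₀, ‖(T * S) ^ m‖ ≤ ε ^ m) :
    ∃ E, InPhi L φ E ∧ ∃ B > 0, FS L ((E - P) * T * (E - P)) B ε := by
  classical
  by_contra hcon
  push Not at hcon
  have hone : InPhi L φ 1 :=
    ⟨1, L.one_mem, 0, L.zero_mem, by simp, hφ.one, hφ.zero, by simp⟩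
  have hPE' : ∀ E, InPhi L φ E → P * E = P := fun E hE => by
    rw [← hPB E (S0_com hE)]; exact hPE E hE
  choose F Sf kf ξf hF1 hF2 hF3 hF4 hF5 hF6 hF7 using
    fun (n : ℕ) (E : {E : H →L[ℂ] H // InPhi L φ E}) =>
      S0_step L T hT1 φ hφ P hP hPB hPE hPlim ε hε hcon n E.1 E.2
  let Es : ℕ → {E : H →L[ℂ] H // InPhi L φ E} := fun n =>
    Nat.rec ⟨1, hone⟩ (fun n E => ⟨F n E, hF1 n E⟩) n
  obtain ⟨E, hEdef⟩ : ∃ E : ℕ → (H →L[ℂ] H), E = fun n => (Es n).1 := ⟨_, rfl⟩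
  obtain ⟨S, hSdef⟩ : ∃ S : ℕ → (H →L[ℂ] H), S = fun n => Sf n (Es n) := ⟨_, rfl⟩
  have hE : ∀ n, InPhi L φ (E n) := fun n => by rw [hEdef]; exact (Es n).2
  have hE0 : E 0 = 1 := by rw [hEdef]; rfl
  have hEs : ∀ n, E (n + 1) = F n (Es n) := fun n => by rw [hEdef]
  have hm1 : ∀ n, E (n + 1) * E n = E (n + 1) := fun n => by
    rw [hEs]
    have := hF2 n (Es n)
    rw [hEdef]; exact this
  have hSA : ∀ n, S n ∈ AlgL L := fun n => by rw [hSdef]; exact hF3 n (Es n)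
  have hS1 : ∀ n, ‖S n‖ ≤ 1 := fun n => by rw [hSdef]; exact hF4 n (Es n)
  have hR : ∀ n, ∀ R : H →L[ℂ] H, ‖R‖ ≤ 1 → R = (E (n + 1) - P) * R * (E (n + 1) - P) →
      ε ^ kf n (Es n) < ‖((T * ((E n - E (n + 1)) * S n * (E n - E (n + 1)) + R)) ^
        (kf n (Es n) + 1)) (ξf n (Es n))‖ := by
    intro n R h1 h2
    have := hF7 n (Es n) R h1 (by rw [← hEs]; exact h2)
    rw [← hEs] at this
    rw [hSdef]
    have hEn : (Es n).1 = E n := by rw [hEdef]
    rw [hEn] at this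
    exact this
  have hcomm : ∀ i j, E i * E j = E j * E i := fun i j => S0_bicom (hE j) (E i) (S0_com (hE i))
  have hmono : ∀ i j, i ≤ j → E j * E i = E j := by
    intro i j hij
    induction j, hij using Nat.le_induction with
    | base => exact mul_self_proj (S0_isp (hE i))
    | succ n hn ih =>
      calc E (n + 1) * E i = E (n + 1) * E n * E i := by rw [hm1]
        _ = E (n + 1) * (E n * E i) := mul_assoc _ _ _
        _ = E (n + 1) := by rw [ih, hm1]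
  have hmono' : ∀ i j, i ≤ j → E i * E j = E j := fun i j hij => by rw [hcomm]; exact hmono i j hij
  -- blocks
  have hΔ : ∀ i, IsStarProjection (E i - E (i + 1)) := fun i =>
    (S0_isp (hE (i + 1))).sub_of_mul_eq_left (S0_isp (hE i)) (hm1 i)
  have hΔA : ∀ i, E i - E (i + 1) ∈ AlgL L := fun i =>
    AlgL_sub L (ComL_sub_AlgL L (S0_com (hE i))) (ComL_sub_AlgL L (S0_com (hE (i + 1))))
  have hl0 : ∀ i j, i < j → E j * (E i - E (i + 1)) = 0 := fun i j h => by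
    rw [mul_sub, hmono i j h.le, hmono (i + 1) j h, sub_self]
  have hr0 : ∀ i j, i < j → (E i - E (i + 1)) * E j = 0 := fun i j h => by
    rw [sub_mul, hmono' i j h.le, hmono' (i + 1) j h, sub_self]
  have hl1 : ∀ i j, j ≤ i → E j * (E i - E (i + 1)) = E i - E (i + 1) := fun i j h => by
    rw [mul_sub, hmono' j i h, hmono' j (i + 1) (by omega)]
  have hr1 : ∀ i j, j ≤ i → (E i - E (i + 1)) * E j = E i - E (i + 1) := fun i j h => by
    rw [sub_mul, hmono j i h, hmono j (i + 1) (by omega)]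
  obtain ⟨G, hG⟩ : ∃ G : ℕ → (H →L[ℂ] H), G = fun i =>
    (E i - E (i + 1)) * S i * (E i - E (i + 1)) := ⟨_, rfl⟩
  have hGi : ∀ i, G i = (E i - E (i + 1)) * S i * (E i - E (i + 1)) := fun i => by rw [hG]
  obtain ⟨K, hK⟩ : ∃ K : ℕ → (H →L[ℂ] H), K = fun n => ∑ i ∈ range n, G i := ⟨_, rfl⟩
  have hKn : ∀ n, K n = ∑ i ∈ range n, G i := fun n => by rw [hK]
  have hGlt : ∀ i j, i < j → E j * G i = 0 := fun i j h => by
    rw [hGi, ← mul_assoc, ← mul_assoc, hl0 i j h, zero_mul, zero_mul]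
  have hGc : ∀ i j, E j * G i * E j = (if i = j then G j else 0) + E (j + 1) * G i * E (j + 1) := by
    intro i j
    rcases lt_trichotomy i j with h | h | h
    · rw [hGlt i j h, hGlt i (j + 1) (by omega), if_neg h.ne]; simp
    · subst h
      rw [if_pos rfl, hGlt i (i + 1) (by omega), zero_mul, add_zero]
      rw [hGi, ← mul_assoc, ← mul_assoc, hl1 i i le_rfl, mul_assoc, mul_assoc, hr1 i i le_rfl,
        ← mul_assoc]
    · rw [if_neg h.ne', zero_add, hGi]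
      rw [← mul_assoc, ← mul_assoc, hl1 i j h.le, mul_assoc, mul_assoc, hr1 i j h.le,
        ← mul_assoc (E (j + 1)), ← mul_assoc (E (j + 1)), hl1 i (j + 1) h, mul_assoc _ _ (E (j + 1)),
        hr1 i (j + 1) h, mul_assoc]
  have hKc : ∀ j n, j < n → E j * K n * E j = G j + E (j + 1) * K n * E (j + 1) := by
    intro j n hjn
    rw [hKn, Finset.mul_sum, Finset.sum_mul, Finset.mul_sum, Finset.sum_mul]
    rw [Finset.sum_congr rfl (fun i _ => hGc i j), Finset.sum_add_distrib,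
      Finset.sum_ite_eq' (range n) j (fun _ => G j), if_pos (Finset.mem_range.mpr hjn)]
  have hEK : ∀ n, E n * K n = 0 := by
    intro n
    rw [hKn, Finset.mul_sum]
    exact Finset.sum_eq_zero (fun i hi => hGlt i n (Finset.mem_range.mp hi))
  have hsymm : ∀ {Q : H →L[ℂ] H}, IsStarProjection Q → ∀ x y : H, ⟪Q x, y⟫_ℂ = ⟪x, Q y⟫_ℂ :=
    fun {Q} hQ x y => hQ.isSelfAdjoint.isSymmetric x y
  have hKnorm : ∀ n x, ‖K n x‖ * ‖K n x‖ ≤ ‖(1 - E n) x‖ * ‖(1 - E n) x‖ := by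
    intro n
    induction n with
    | zero =>
      intro x
      rw [hKn, hE0]; simp
    | succ n ih =>
      intro x
      have e1 : K (n + 1) x = K n x + G n x := by
        rw [hKn, hKn, Finset.sum_range_succ, add_apply]
      have e2 : (1 - E (n + 1)) x = (1 - E n) x + (E n - E (n + 1)) x := by
        rw [← add_apply]; congr 1; abel
      have o1 : ⟪K n x, G n x⟫_ℂ = 0 := by
        have : G n x = E n (G n x) := by
          rw [← mul_apply_eq_comp, hGi, ← mul_assoc, ← mul_assoc, hl1 n n le_rfl]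
        rw [this, ← hsymm (S0_isp (hE n)), ← mul_apply_eq_comp, hEK]
        simp
      have o2 : ⟪(1 - E n) x, (E n - E (n + 1)) x⟫_ℂ = 0 := by
        have : (E n - E (n + 1)) x = E n ((E n - E (n + 1)) x) := by
          rw [← mul_apply_eq_comp, hl1 n n le_rfl]
        rw [this, ← hsymm (S0_isp (hE n)), ← mul_apply_eq_comp, mul_sub, mul_one,
          mul_self_proj (S0_isp (hE n)), sub_self]
        simp
      rw [e1, e2, norm_add_sq_eq_norm_sq_add_norm_sq_of_inner_eq_zero _ _ o1,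
        norm_add_sq_eq_norm_sq_add_norm_sq_of_inner_eq_zero _ _ o2]
      have e3 : ‖G n x‖ ≤ ‖(E n - E (n + 1)) x‖ := by
        rw [hGi, mul_apply_eq_comp, mul_apply_eq_comp]
        exact (S0_opn (hΔ n) _).trans (S0_con (hS1 n) _)
      exact add_le_add (ih x) (mul_self_le_mul_self (norm_nonneg _) e3)
  have hK1 : ∀ n, ‖K n‖ ≤ 1 := by
    intro n
    refine ContinuousLinearMap.opNorm_le_bound _ zero_le_one (fun x => ?_)
    rw [one_mul]
    have h1 := hKnorm n x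
    have h2 : ‖K n x‖ ≤ ‖(1 - E n) x‖ := by
      by_contra hlt
      rw [not_le] at hlt
      have := mul_self_lt_mul_self (norm_nonneg ((1 - E n) x)) hlt
      linarith
    refine h2.trans (S0_opn ?_ x)
    exact (S0_isp (hE n)).one_sub
  obtain ⟨W, hW1, hlim⟩ := exists_wot_limit (Filter.hyperfilter ℕ) K 1 hK1
  have hKA : ∀ n, K n ∈ AlgL L := by
    intro n
    rw [hKn]
    refine AlgL_sum L _ _ (fun i _ => ?_)
    rw [hGi]
    exact AlgL_mul L (AlgL_mul L (hΔA i) (hSA i)) (hΔA i)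
  have hWA : W ∈ AlgL L := by
    intro M hM
    exact S0_wot_zero hlim (L.proj M hM).one_sub.isSelfAdjoint M (fun n => hKA n M hM)
  have hPG : ∀ i, P * G i = 0 := fun i => by
    have hz : P * (E i - E (i + 1)) = 0 := by
      rw [mul_sub, hPE' _ (hE i), hPE' _ (hE (i + 1)), sub_self]
    rw [hGi, ← mul_assoc, ← mul_assoc, hz, zero_mul, zero_mul]
  have hGP : ∀ i, G i * P = 0 := fun i => by
    have hz : (E i - E (i + 1)) * P = 0 := by
      rw [sub_mul, hPE _ (hE i), hPE _ (hE (i + 1)), sub_self]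
    rw [hGi, mul_assoc, hz, mul_zero]
  have hPW : P * W = 0 := by
    have := S0_wot_zero hlim hP.isSelfAdjoint 1 (fun n => by
      rw [hKn, mul_one, Finset.mul_sum]
      exact Finset.sum_eq_zero (fun i _ => hPG i))
    rwa [mul_one] at this
  have hWP : W * P = 0 := by
    have := S0_wot_zero hlim (IsSelfAdjoint.one (H →L[ℂ] H)) P (fun n => by
      rw [hKn, one_mul, Finset.sum_mul]
      exact Finset.sum_eq_zero (fun i _ => hGP i))
    rwa [one_mul] at this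
  have hWc : ∀ j, E j * W * E j = G j + E (j + 1) * W * E (j + 1) := by
    intro j
    refine S0_wot_eq hlim (S0_isp (hE j)).isSelfAdjoint (S0_isp (hE (j + 1))).isSelfAdjoint _ _ _ ?_
    have : ∀ᶠ n in (atTop : Filter ℕ), E j * K n * E j = G j + E (j + 1) * K n * E (j + 1) := by
      filter_upwards [eventually_gt_atTop j] with n hn
      exact hKc j n hn
    exact Nat.hyperfilter_le_atTop this
  obtain ⟨m₀, hm₀⟩ := hq W hWA hW1
  have hnE : ∀ n, ‖E n‖ ≤ 1 := fun n => (S0_isp (hE n)).norm_le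
  have hEWE : ∀ n, ‖E n * W * E n‖ ≤ 1 := by
    intro n
    calc ‖E n * W * E n‖ ≤ ‖E n * W‖ * ‖E n‖ := norm_mul_le _ _
      _ ≤ (‖E n‖ * ‖W‖) * ‖E n‖ := mul_le_mul_of_nonneg_right (norm_mul_le _ _) (norm_nonneg _)
      _ ≤ (1 * 1) * 1 := by
          apply mul_le_mul _ (hnE n) (norm_nonneg _) (by norm_num)
          exact mul_le_mul (hnE n) hW1 (norm_nonneg _) (by norm_num)
      _ = 1 := by norm_num
  have hfin := hR m₀ (E (m₀ + 1) * W * E (m₀ + 1)) (hEWE _) (by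
    have q1 : (E (m₀ + 1) - P) * E (m₀ + 1) = E (m₀ + 1) - P := by
      rw [sub_mul, mul_self_proj (S0_isp (hE _)), hPE' _ (hE _)]
    have q2 : E (m₀ + 1) * (E (m₀ + 1) - P) = E (m₀ + 1) - P := by
      rw [mul_sub, mul_self_proj (S0_isp (hE _)), hPE _ (hE _)]
    have q3 : (E (m₀ + 1) - P) * W = E (m₀ + 1) * W := by rw [sub_mul, hPW, sub_zero]
    have q4 : W * (E (m₀ + 1) - P) = W * E (m₀ + 1) := by rw [mul_sub, hWP, sub_zero]
    calc E (m₀ + 1) * W * E (m₀ + 1) = (E (m₀ + 1) - P) * W * E (m₀ + 1) := by rw [q3]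
      _ = (E (m₀ + 1) - P) * (W * E (m₀ + 1)) := mul_assoc _ _ _
      _ = (E (m₀ + 1) - P) * (W * (E (m₀ + 1) - P)) := by rw [q4]
      _ = ((E (m₀ + 1) - P) * E (m₀ + 1)) * W * (E (m₀ + 1) * (E (m₀ + 1) - P)) := by
          rw [q1, q2, mul_assoc]
      _ = _ := by noncomm_ring)
  rw [← hGi, ← hWc, S0_pow (hE m₀) hT hWA] at hfin
  set k := kf m₀ (Es m₀) with hk
  have hkm : m₀ ≤ k := hF5 m₀ (Es m₀)
  have hξ : ‖ξf m₀ (Es m₀)‖ ≤ 1 := hF6 m₀ (Es m₀)
  have hTW := hm₀ k hkm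
  have hbound : ‖(T * (E m₀ * W * E m₀) * (E m₀ * (T * W) ^ k * E m₀))‖ ≤ ‖(T * W) ^ k‖ := by
    have b1 : ‖T * (E m₀ * W * E m₀)‖ ≤ 1 := by
      calc _ ≤ ‖T‖ * ‖E m₀ * W * E m₀‖ := norm_mul_le _ _
        _ ≤ 1 * 1 := mul_le_mul hT1 (hEWE _) (norm_nonneg _) (by norm_num)
        _ = 1 := by norm_num
    have b2 : ‖E m₀ * (T * W) ^ k * E m₀‖ ≤ ‖(T * W) ^ k‖ := by
      calc _ ≤ ‖E m₀ * (T * W) ^ k‖ * ‖E m₀‖ := norm_mul_le _ _
        _ ≤ (‖E m₀‖ * ‖(T * W) ^ k‖) * ‖E m₀‖ :=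
            mul_le_mul_of_nonneg_right (norm_mul_le _ _) (norm_nonneg _)
        _ ≤ (1 * ‖(T * W) ^ k‖) * 1 := by
            apply mul_le_mul _ (hnE m₀) (norm_nonneg _) (by positivity)
            exact mul_le_mul_of_nonneg_right (hnE m₀) (norm_nonneg _)
        _ = _ := by ring
    calc _ ≤ ‖T * (E m₀ * W * E m₀)‖ * ‖E m₀ * (T * W) ^ k * E m₀‖ := norm_mul_le _ _
      _ ≤ 1 * ‖(T * W) ^ k‖ := mul_le_mul b1 b2 (norm_nonneg _) (by norm_num)
      _ = _ := one_mul _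
  have hlast : ‖(T * (E m₀ * W * E m₀) * (E m₀ * (T * W) ^ k * E m₀)) (ξf m₀ (Es m₀))‖ ≤ ε ^ k := by
    calc _ ≤ ‖T * (E m₀ * W * E m₀) * (E m₀ * (T * W) ^ k * E m₀)‖ * ‖ξf m₀ (Es m₀)‖ :=
          ContinuousLinearMap.le_opNorm _ _
      _ ≤ ε ^ k * 1 := mul_le_mul (hbound.trans hTW) hξ (norm_nonneg _) (by positivity)
      _ = _ := mul_one _
  exact absurd hfin (not_lt.mpr hlast)

end Pool.Agent.Y283.CSLQ
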